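import Pool.Agent.Helper93.PS.R0
import Pool.Agent.Helper41.PS.Poincare
import Pool.Agent.Helper41.PS.Cutoff

/-!
# The global L1 Poincare inequality on a compact connected surface
-/

open MeasureTheory Set Manifold Bundle Filter Topology
open scoped ContDiff ENNReal

set_option linter.unusedSectionVars false

namespace Pool.Agent.Helper99.PS
open Pool.Agent.Helper41.PS hiding grad_add grad_sub grad_add_const grad_const grad_mul grad_const_mul grad_comp

variable {M : Type*} [TopologicalSpace M] [T2Space M] [CompactSpace M] [ChartedSpace E2 M]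
  [IsManifold (𝓡 2) ∞ M] [RiemannianBundle (fun x : M => TangentSpace (𝓡 2) x)]
  [IsContMDiffRiemannianBundle (𝓡 2) ∞ E2 (fun x : M => TangentSpace (𝓡 2) x)]
  [MeasurableSpace M] [BorelSpace M]

/-- An open set on which smooth functions satisfy a Poincare inequality with the global
Dirichlet integral of the gradient on the right. -/
def Good (vol : Measure M) (U : Set M) : Prop :=
  IsOpen U ∧ ∃ C : ℝ, 0 ≤ C ∧ ∀ u : M → ℝ, ContMDiff (𝓡 2) 𝓘(ℝ, ℝ) ∞ u →
    ∃ c : ℝ, ∫ x in U, |u x - c| ∂vol ≤ C * ∫ x, ‖Pool.Agent.Helper41.PS.grad u x‖ ∂vol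

omit [T2Space M] [IsContMDiffRiemannianBundle (𝓡 2) ∞ E2 (fun x : M => TangentSpace (𝓡 2) x)] in
theorem integrable_of_cont {vol : Measure M} [IsProbabilityMeasure vol] {f : M → ℝ}
    (hf : Continuous f) : Integrable f vol := by
  obtain ⟨C, hC⟩ := isCompact_univ.exists_bound_of_continuousOn (hf.continuousOn (s := univ))
  exact Integrable.of_bound hf.aestronglyMeasurable C
    (Eventually.of_forall fun x => hC x (mem_univ x))

omit [IsContMDiffRiemannianBundle (𝓡 2) ∞ E2 (fun x : M => TangentSpace (𝓡 2) x)] in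
theorem Good.union {vol : Measure M} [IsProbabilityMeasure vol] [vol.IsOpenPosMeasure]
    {U V : Set M} (hU : Good vol U) (hV : Good vol V) (hUV : (U ∩ V).Nonempty) :
    Good vol (U ∪ V) := by
  obtain ⟨hUo, C1, hC1, h1⟩ := hU
  obtain ⟨hVo, C2, hC2, h2⟩ := hV
  have hpos : 0 < vol.real (U ∩ V) := by
    rw [measureReal_def]
    exact ENNReal.toReal_pos ((hUo.inter hVo).measure_pos vol hUV).ne' (measure_ne_top _ _)
  refine ⟨hUo.union hVo, C1 + C2 + (C1 + C2) / vol.real (U ∩ V), by positivity, fun u hu => ?_⟩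
  obtain ⟨c1, h1⟩ := h1 u hu
  obtain ⟨c2, h2⟩ := h2 u hu
  set G := ∫ x, ‖Pool.Agent.Helper41.PS.grad u x‖ ∂vol with hG
  have hG0 : 0 ≤ G := integral_nonneg fun x => norm_nonneg _
  have hcont : Continuous u := hu.continuous
  have hi : ∀ c : ℝ, Integrable (fun x => |u x - c|) vol := fun c =>
    integrable_of_cont (by fun_prop)
  refine ⟨c1, ?_⟩
  have hb : |c1 - c2| * vol.real (U ∩ V) ≤ (C1 + C2) * G := by
    have e1 : |c1 - c2| * vol.real (U ∩ V) = ∫ x in U ∩ V, |c1 - c2| ∂vol := by
      rw [setIntegral_const, smul_eq_mul, mul_comm]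
    rw [e1]
    calc ∫ x in U ∩ V, |c1 - c2| ∂vol ≤ ∫ x in U ∩ V, (|u x - c1| + |u x - c2|) ∂vol := by
          refine integral_mono (integrable_const _) ((hi c1).integrableOn.add (hi c2).integrableOn)
            fun x => ?_
          have := abs_sub_abs_le_abs_sub (u x - c2) (u x - c1)
          calc |c1 - c2| = |(u x - c2) - (u x - c1)| := by ring_nf
            _ ≤ |u x - c2| + |u x - c1| := abs_sub _ _
            _ = |u x - c1| + |u x - c2| := add_comm _ _
      _ = ∫ x in U ∩ V, |u x - c1| ∂vol + ∫ x in U ∩ V, |u x - c2| ∂vol :=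
          integral_add (hi c1).integrableOn (hi c2).integrableOn
      _ ≤ ∫ x in U, |u x - c1| ∂vol + ∫ x in V, |u x - c2| ∂vol := by
          refine add_le_add ?_ ?_
          · exact setIntegral_mono_set (hi c1).integrableOn
              (Eventually.of_forall fun x => abs_nonneg _)
              (Eventually.of_forall inter_subset_left)
          · exact setIntegral_mono_set (hi c2).integrableOn
              (Eventually.of_forall fun x => abs_nonneg _)
              (Eventually.of_forall inter_subset_right)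
      _ ≤ (C1 + C2) * G := by linarith
  have hb' : |c1 - c2| ≤ (C1 + C2) / vol.real (U ∩ V) * G := by
    rw [div_mul_eq_mul_div, le_div_iff₀ hpos]
    exact hb
  have hVint : ∫ x in V, |u x - c1| ∂vol ≤ ∫ x in V, |u x - c2| ∂vol + |c1 - c2| := by
    calc ∫ x in V, |u x - c1| ∂vol ≤ ∫ x in V, (|u x - c2| + |c1 - c2|) ∂vol := by
          refine integral_mono (hi c1).integrableOn
            ((hi c2).integrableOn.add (integrable_const _)) fun x => ?_
          calc |u x - c1| = |(u x - c2) - (c1 - c2)| := by ring_nf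
            _ ≤ |u x - c2| + |c1 - c2| := abs_sub _ _
      _ = ∫ x in V, |u x - c2| ∂vol + ∫ x in V, |c1 - c2| ∂vol :=
          integral_add (hi c2).integrableOn (integrable_const _)
      _ ≤ ∫ x in V, |u x - c2| ∂vol + |c1 - c2| := by
          rw [setIntegral_const, smul_eq_mul]
          have : vol.real V ≤ 1 := measureReal_le_one
          nlinarith [abs_nonneg (c1 - c2)]
  calc ∫ x in U ∪ V, |u x - c1| ∂vol ≤ ∫ x in U, |u x - c1| ∂vol + ∫ x in V, |u x - c1| ∂vol := by
        rw [← union_sdiff_self, setIntegral_union disjoint_sdiff_right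
          (hVo.measurableSet.diff hUo.measurableSet) (hi c1).integrableOn (hi c1).integrableOn]
        refine add_le_add_right ?_ _
        exact setIntegral_mono_set (hi c1).integrableOn
          (Eventually.of_forall fun x => abs_nonneg _)
          (Eventually.of_forall fun x hx => hx.1)
    _ ≤ C1 * G + (C2 * G + |c1 - c2|) := by linarith
    _ ≤ (C1 + C2 + (C1 + C2) / vol.real (U ∩ V)) * G := by nlinarith

/-- A function smooth on a disc agrees on the disc of half the radius with a smooth function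
on the plane. -/
theorem exists_cut {δ : ℝ} (hδ : 0 < δ) {w : E2 → ℝ}
    (hw : ContDiffOn ℝ ∞ w (Metric.ball (0 : E2) δ)) :
    ∃ f : E2 → ℝ, ContDiff ℝ ∞ f ∧ ∀ y ∈ Metric.ball (0 : E2) (δ / 2), f y = w y := by
  refine ⟨fun y => chi (δ / 2) y * w y, ?_, fun y hy => ?_⟩
  · rw [contDiff_iff_contDiffAt]
    intro y
    by_cases hy : y ∈ Metric.ball (0 : E2) δ
    · exact (chi_contDiff _).contDiffAt.mul (hw.contDiffAt (Metric.isOpen_ball.mem_nhds hy))
    · have hy' : y ∉ tsupport (chi (δ / 2)) := by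
        intro h
        have := chi_tsupport_ball (by positivity : 0 < δ / 2) h
        rw [show 2 * (δ / 2) = δ by ring] at this
        exact hy this
      have : (fun y => chi (δ / 2) y * w y) =ᶠ[𝓝 y] fun _ => 0 := by
        filter_upwards [(notMem_tsupport_iff_eventuallyEq).1 hy'] with z hz
        rw [hz]
        simp
      exact contDiffAt_const.congr_of_eventuallyEq this
  · have : ‖y‖ ≤ δ / 2 := by
      have := Metric.mem_ball.1 hy
      rw [dist_zero_right] at this
      exact this.le
    show chi (δ / 2) y * w y = w y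
    rw [chi_one _ (by positivity) this, one_mul]

/-- Every point has a good neighbourhood. -/
theorem exists_good {vol : Measure M} [IsProbabilityMeasure vol] (hvol : IsRiemannianVolume vol)
    (x0 : M) : ∃ U, Good vol U ∧ x0 ∈ U := by
  obtain ⟨p⟩ := Pool.Agent.Helper75.PS.exists_param vol hvol x0
  have hδ := p.δ_pos
  set r := p.δ / 2 with hr
  have hr0 : 0 < r := by positivity
  have hrδ : r < p.δ := by rw [hr]; linarith
  have hsub : Metric.ball (0 : E2) r ⊆ Metric.ball 0 p.δ := Metric.ball_subset_ball hrδ.le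
  obtain ⟨c, C, hc, hC, hσ, hcmp⟩ := Pool.Agent.Helper93.PS.exists_grad_comparison p hrδ
  have hopen : IsOpen (p.P '' Metric.ball 0 r) := p.open_P _ hsub Metric.isOpen_ball
  refine ⟨p.P '' Metric.ball 0 r, ⟨hopen, C * (6 * r) * (1 / (√c * c)), by positivity,
    fun u hu => ?_⟩, ⟨0, Metric.mem_ball_self hr0, p.P_zero⟩⟩
  have hucont : Continuous u := hu.continuous
  have hgcont := Pool.Agent.Helper93.PS.continuous_norm_grad hu
  -- the cut off function
  obtain ⟨f, hf, hfe⟩ := exists_cut p.δ_pos (p.smooth_comp u hu)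
  rw [← hr] at hfe
  have hf1 : ContDiff ℝ 1 f := hf.of_le (by exact_mod_cast le_top)
  have hfder : ∀ y ∈ Metric.ball (0 : E2) r, ‖fderiv ℝ f y‖ = ‖gradient (u ∘ p.P) y‖ := by
    intro y hy
    rw [norm_grad]
    have : f =ᶠ[𝓝 y] (u ∘ p.P) := by
      filter_upwards [Metric.isOpen_ball.mem_nhds hy] with z hz using hfe z hz
    rw [this.fderiv_eq]
  refine ⟨avg f 0 r, ?_⟩
  have hP := poincare_ball f hf1 0 hr0
  set A := avg f 0 r with hA
  have hcb : Metric.ball (0 : E2) r ⊆ Metric.closedBall 0 r := Metric.ball_subset_closedBall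
  have hσc : ContinuousOn p.σ (Metric.closedBall 0 r) := p.σ_smooth.continuousOn.mono
    (Metric.closedBall_subset_ball hrδ)
  have hPc : ContinuousOn p.P (Metric.closedBall 0 r) := p.cont_P.mono
    (Metric.closedBall_subset_ball hrδ)
  have hint : ∀ g : M → ℝ, Continuous g →
      IntegrableOn (fun y => g (p.P y) * p.σ y) (Metric.ball (0 : E2) r) := fun g hg =>
    (((hg.comp_continuousOn hPc).mul hσc).integrableOn_compact
      (isCompact_closedBall 0 r)).mono_set hcb
  have hint' : ∀ g : E2 → ℝ, Continuous g → IntegrableOn g (Metric.ball (0 : E2) r) := fun g hg =>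
    (hg.continuousOn.integrableOn_compact (isCompact_closedBall 0 r)).mono_set hcb
  have hfd : Continuous fun y => ‖fderiv ℝ f y‖ := (hf1.continuous_fderiv (by simp)).norm
  have hsc : 0 < √c := Real.sqrt_pos.2 hc
  calc ∫ x in p.P '' Metric.ball 0 r, |u x - A| ∂vol
      = ∫ y in Metric.ball (0 : E2) r, |u (p.P y) - A| * p.σ y :=
        Pool.Agent.Helper93.PS.integral_param p (f := fun x => |u x - A|) (by fun_prop) Metric.isOpen_ball hsub
    _ ≤ ∫ y in Metric.ball (0 : E2) r, C * |f y - A| := by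
        refine setIntegral_mono_on (hint (fun x => |u x - A|) (by fun_prop))
          ((hint' (fun y => |f y - A|) (by have := hf1.continuous; fun_prop)).const_mul C)
          measurableSet_ball fun y hy => ?_
        rw [hfe y hy, mul_comm]
        exact mul_le_mul_of_nonneg_right (hσ y (hcb hy)).2 (abs_nonneg _)
    _ = C * ∫ y in Metric.ball (0 : E2) r, |f y - A| := integral_const_mul _ _
    _ ≤ C * (6 * r * ∫ y in Metric.ball (0 : E2) r, ‖fderiv ℝ f y‖) :=
        mul_le_mul_of_nonneg_left hP hC.le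
    _ ≤ C * (6 * r * ∫ y in Metric.ball (0 : E2) r,
          (1 / (√c * c)) * (‖Pool.Agent.Helper41.PS.grad u (p.P y)‖ * p.σ y)) := by
        refine mul_le_mul_of_nonneg_left (mul_le_mul_of_nonneg_left ?_ (by positivity)) hC.le
        refine setIntegral_mono_on (hint' _ hfd) ((hint _ hgcont).const_mul _)
          measurableSet_ball fun y hy => ?_
        rw [hfder y hy]
        have h1 := (hcmp u hu y (hcb hy)).1
        have h2 : √c * ‖gradient (u ∘ p.P) y‖ ≤ ‖Pool.Agent.Helper41.PS.grad u (p.P y)‖ := by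
          refine le_of_sq_le_sq ?_ (norm_nonneg _)
          rw [mul_pow, Real.sq_sqrt hc.le]
          exact h1
        have h3 := (hσ y (hcb hy)).1
        rw [one_div, ← div_eq_inv_mul, le_div_iff₀ (by positivity)]
        calc ‖gradient (u ∘ p.P) y‖ * (√c * c) = (√c * ‖gradient (u ∘ p.P) y‖) * c := by ring
          _ ≤ ‖Pool.Agent.Helper41.PS.grad u (p.P y)‖ * p.σ y :=
            mul_le_mul h2 h3 hc.le (norm_nonneg _)
    _ = C * (6 * r) * (1 / (√c * c)) * ∫ y in Metric.ball (0 : E2) r,
          (‖Pool.Agent.Helper41.PS.grad u (p.P y)‖ * p.σ y) := by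
        rw [integral_const_mul]; ring
    _ = C * (6 * r) * (1 / (√c * c)) * ∫ x in p.P '' Metric.ball 0 r,
          ‖Pool.Agent.Helper41.PS.grad u x‖ ∂vol := by
        rw [Pool.Agent.Helper93.PS.integral_param p hgcont Metric.isOpen_ball hsub]
    _ ≤ C * (6 * r) * (1 / (√c * c)) * ∫ x, ‖Pool.Agent.Helper41.PS.grad u x‖ ∂vol := by
        refine mul_le_mul_of_nonneg_left ?_ (by positivity)
        exact setIntegral_le_integral (integrable_of_cont hgcont)
          (Eventually.of_forall fun x => norm_nonneg _)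

/-- **Global Poincare inequality** in L1. -/
theorem exists_global_poincare [ConnectedSpace M] (vol : Measure M) [IsProbabilityMeasure vol]
    (hvol : IsRiemannianVolume vol) : ∃ C : ℝ, 0 < C ∧ ∀ u : M → ℝ,
    ContMDiff (𝓡 2) 𝓘(ℝ, ℝ) ∞ u →
    ∫ x, |u x - ∫ y, u y ∂vol| ∂vol ≤ C * ∫ x, ‖Pool.Agent.Helper41.PS.grad u x‖ ∂vol := by
  have : vol.IsOpenPosMeasure := Pool.Agent.Helper75.PS.isOpenPos hvol
  obtain ⟨x0⟩ : Nonempty M := inferInstance
  -- every point lies in a good set containing the base point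
  have hS : ∀ x : M, ∃ U, Good vol U ∧ x0 ∈ U ∧ x ∈ U := by
    have hclopen : IsClopen {x : M | ∃ U, Good vol U ∧ x0 ∈ U ∧ x ∈ U} := by
      constructor
      · refine isClosed_of_closure_subset fun y hy => ?_
        obtain ⟨V, hV, hyV⟩ := exists_good hvol y
        obtain ⟨z, hzV, U, hU, h0, hz⟩ := mem_closure_iff.1 hy V hV.1 hyV
        exact ⟨U ∪ V, hU.union hV ⟨z, hz, hzV⟩, Or.inl h0, Or.inr hyV⟩
      · rw [isOpen_iff_forall_mem_open]
        rintro x ⟨U, hU, h0, hx⟩
        exact ⟨U, fun y hy => ⟨U, hU, h0, hy⟩, hU.1, hx⟩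
    have hne : ({x : M | ∃ U, Good vol U ∧ x0 ∈ U ∧ x ∈ U}).Nonempty := by
      obtain ⟨V, hV, hV0⟩ := exists_good hvol x0
      exact ⟨x0, V, hV, hV0, hV0⟩
    have := hclopen.eq_univ hne
    intro x
    have hx : x ∈ {x : M | ∃ U, Good vol U ∧ x0 ∈ U ∧ x ∈ U} := by rw [this]; exact mem_univ x
    exact hx
  choose U hU h0 hxU using hS
  obtain ⟨t, ht⟩ := isCompact_univ.elim_nhds_subcover U fun x _ => (hU x).1.mem_nhds (hxU x)
  have hfin : ∀ t : Finset M, Good vol (U x0 ∪ ⋃ x ∈ t, U x) := by
    classical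
    intro t
    induction t using Finset.induction_on with
    | empty => simpa using hU x0
    | insert a s ha ih =>
      have := ih.union (hU a) ⟨x0, Or.inl (h0 x0), h0 a⟩
      rw [Finset.set_biUnion_insert]
      rwa [union_comm (U a), ← union_assoc]
  have huniv : U x0 ∪ ⋃ x ∈ t, U x = univ :=
    univ_subset_iff.1 (ht.2.trans subset_union_right)
  obtain ⟨-, C, hC, hG⟩ := hfin t
  rw [huniv] at hG
  refine ⟨2 * C + 1, by positivity, fun u hu => ?_⟩
  obtain ⟨c, hc⟩ := hG u hu
  rw [setIntegral_univ] at hc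
  set G := ∫ x, ‖Pool.Agent.Helper41.PS.grad u x‖ ∂vol with hGdef
  have hG0 : 0 ≤ G := integral_nonneg fun x => norm_nonneg _
  have hcont : Continuous u := hu.continuous
  have hi : ∀ c : ℝ, Integrable (fun x => |u x - c|) vol := fun c =>
    integrable_of_cont (by fun_prop)
  have hmean : |c - ∫ y, u y ∂vol| ≤ ∫ x, |u x - c| ∂vol := by
    have e : c - ∫ y, u y ∂vol = - ∫ x, (u x - c) ∂vol := by
      rw [integral_sub (integrable_of_cont hcont) (integrable_const _)]
      simp
    rw [e, abs_neg]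
    exact abs_integral_le_integral_abs
  calc ∫ x, |u x - ∫ y, u y ∂vol| ∂vol ≤ ∫ x, (|u x - c| + |c - ∫ y, u y ∂vol|) ∂vol := by
        refine integral_mono (hi _) ((hi c).add (integrable_const _)) fun x => ?_
        exact abs_sub_le _ _ _
    _ = ∫ x, |u x - c| ∂vol + |c - ∫ y, u y ∂vol| := by
        rw [integral_add (hi c) (integrable_const _)]
        simp
    _ ≤ (2 * C + 1) * G := by nlinarith

end Pool.Agent.Helper99.PS
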