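import Pool.Agent.Helper99.PS.Global
import Pool.Agent.Helper41.PS.TwoSided
import Pool.Agent.Helper41.PS.GlobDef

/-!
# The total gradient bound from window energies on a compact surface
-/

open MeasureTheory Set Manifold Bundle Filter Topology
open scoped ContDiff ENNReal

set_option linter.unusedSectionVars false

namespace Pool.Agent.Helper99.PS
open Pool.Agent.Helper41.PS hiding grad_add grad_sub grad_add_const grad_const grad_mul grad_const_mul grad_comp

/-- A level that is a median of a continuous function on a disc: both one sided level sets at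
distance one from it fill at most half of the disc. -/
theorem exists_median {f : E2 → ℝ} (hf : Continuous f) {r : ℝ} (hr : 0 < r) :
    ∃ c : ℝ, lev (fun x => f x - c) 0 r 1 ≤ Real.pi * r ^ 2 / 2 ∧
      lev (fun x => -(f x - c)) 0 r 1 ≤ Real.pi * r ^ 2 / 2 := by
  have hpi := Real.pi_pos
  set H : ℝ := Real.pi * r ^ 2 / 2 with hH
  have hHpos : 0 < H := by positivity
  set S : Set ℝ := {t | H ≤ lev f 0 r t} with hS
  obtain ⟨K, hK⟩ := (isCompact_closedBall (0 : E2) r).exists_bound_of_continuousOn
    hf.continuousOn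
  have hKb : ∀ x ∈ Metric.ball (0 : E2) r, |f x| ≤ K := fun x hx =>
    hK x (Metric.ball_subset_closedBall hx)
  have hne : S.Nonempty := by
    refine ⟨-K, ?_⟩
    have : {x ∈ Metric.ball (0 : E2) r | -K ≤ f x} = Metric.ball (0 : E2) r := by
      ext x
      simp only [mem_ofPred_eq]
      exact ⟨fun h => h.1, fun h => ⟨h, (abs_le.1 (hKb x h)).1⟩⟩
    show H ≤ lev f 0 r (-K)
    rw [lev, this, volume_ball_real 0 hr.le, hH]
    have : 0 < Real.pi * r ^ 2 := by positivity
    linarith
  have hbdd : BddAbove S := by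
    refine ⟨K, fun t ht => ?_⟩
    by_contra hcon
    push Not at hcon
    have : {x ∈ Metric.ball (0 : E2) r | t ≤ f x} = ∅ := by
      ext x
      simp only [mem_ofPred_eq, mem_empty_iff_false, iff_false, not_and, not_le]
      intro hx
      exact lt_of_le_of_lt (abs_le.1 (hKb x hx)).2 hcon
    have h2 : H ≤ lev f 0 r t := ht
    rw [lev, this] at h2
    simp at h2
    linarith
  refine ⟨sSup S, ?_, ?_⟩
  · have h1 : sSup S + 1 ∉ S := fun h => by
      have := le_csSup hbdd h
      linarith
    have h2 : lev f 0 r (sSup S + 1) < H := not_le.1 h1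
    have h3 : lev (fun x => f x - sSup S) 0 r 1 = lev f 0 r (sSup S + 1) := by
      unfold lev
      congr 1
      ext x
      simp only [mem_ofPred_eq]
      constructor
      · rintro ⟨h, h'⟩
        exact ⟨h, by linarith⟩
      · rintro ⟨h, h'⟩
        exact ⟨h, by linarith⟩
    rw [h3]
    exact h2.le
  · obtain ⟨t, htS, ht⟩ := exists_lt_of_lt_csSup hne (show sSup S - 1 < sSup S by linarith)
    have htS' : H ≤ volume.real {x ∈ Metric.ball (0 : E2) r | t ≤ f x} := htS
    have hdisj : volume.real {x ∈ Metric.ball (0 : E2) r | 1 ≤ -(f x - sSup S)}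
        + volume.real {x ∈ Metric.ball (0 : E2) r | t ≤ f x} ≤ Real.pi * r ^ 2 := by
      rw [← volume_ball_real (0 : E2) hr.le]
      have hm := measSet_sup hf (0 : E2) r t
      have hfin : volume (Metric.ball (0 : E2) r) ≠ ⊤ := measure_ball_lt_top.ne
      rw [← measureReal_union (μ := volume) (s₁ := {x ∈ Metric.ball (0 : E2) r | 1 ≤ -(f x - sSup S)})
        (s₂ := {x ∈ Metric.ball (0 : E2) r | t ≤ f x}) ?_ hm
        (h₁ := ne_top_of_le_ne_top hfin (measure_mono fun x hx => hx.1))
        (h₂ := ne_top_of_le_ne_top hfin (measure_mono fun x hx => hx.1))]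
      · refine measureReal_mono ?_ hfin
        rintro x (hx | hx)
        · exact hx.1
        · exact hx.1
      · rw [Set.disjoint_left]
        rintro x ⟨_, h1⟩ ⟨_, h2⟩
        linarith
    show volume.real {x ∈ Metric.ball (0 : E2) r | 1 ≤ -(f x - sSup S)} ≤ H
    have : Real.pi * r ^ 2 = 2 * H := by rw [hH]; ring
    linarith

variable {M : Type*} [TopologicalSpace M] [T2Space M] [CompactSpace M] [ChartedSpace E2 M]
  [IsManifold (𝓡 2) ∞ M] [RiemannianBundle (fun x : M => TangentSpace (𝓡 2) x)]
  [IsContMDiffRiemannianBundle (𝓡 2) ∞ E2 (fun x : M => TangentSpace (𝓡 2) x)]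
  [MeasurableSpace M] [BorelSpace M]

/-- Every point has a neighbourhood on which the `L¹` norm of the gradient is controlled by the
window energies. -/
theorem exists_local_total {vol : Measure M} [IsProbabilityMeasure vol]
    (hvol : IsRiemannianVolume vol) {E : ℝ} (hE : 0 ≤ E) (x0 : M) :
    ∃ U : Set M, IsOpen U ∧ x0 ∈ U ∧ ∃ C : ℝ, 0 ≤ C ∧ ∀ u : M → ℝ,
      ContMDiff (𝓡 2) 𝓘(ℝ, ℝ) ∞ u →
      (∀ k : ℝ, ∫ x, (1 / (1 + (u x - k) ^ 2)) * ‖Pool.Agent.Helper41.PS.grad u x‖ ^ 2 ∂vol ≤ E) →
      ∫ x in U, ‖Pool.Agent.Helper41.PS.grad u x‖ ∂vol ≤ C := by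
  obtain ⟨p⟩ := Pool.Agent.Helper75.PS.exists_param vol hvol x0
  have hδ := p.δ_pos
  set r := p.δ / 2 with hr
  have hr0 : 0 < r := by positivity
  have hrδ : r < p.δ := by rw [hr]; linarith
  have hsub : Metric.ball (0 : E2) r ⊆ Metric.ball 0 p.δ := Metric.ball_subset_ball hrδ.le
  obtain ⟨c, C, hc, hC, hσ, hcmp⟩ := Pool.Agent.Helper93.PS.exists_grad_comparison p hrδ
  have hopen : IsOpen (p.P '' Metric.ball 0 r) := p.open_P _ hsub Metric.isOpen_ball
  obtain ⟨G, _, _, hG, -, -, -, hTS⟩ := exists_two_sided (2 / c ^ 2 * E) (by positivity) 1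
  refine ⟨p.P '' Metric.ball 0 r, hopen, ⟨0, Metric.mem_ball_self hr0, p.P_zero⟩,
    C * √C * (G * r), by positivity, fun u hu hW => ?_⟩
  have hucont : Continuous u := hu.continuous
  have hgcont := Pool.Agent.Helper93.PS.continuous_norm_grad hu
  -- the cut off function
  obtain ⟨f, hf, hfe⟩ := exists_cut p.δ_pos (p.smooth_comp u hu)
  rw [← hr] at hfe
  have hf1 : ContDiff ℝ 1 f := hf.of_le (by exact_mod_cast le_top)
  have hfder : ∀ y ∈ Metric.ball (0 : E2) r, ‖fderiv ℝ f y‖ = ‖gradient (u ∘ p.P) y‖ := by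
    intro y hy
    rw [norm_grad]
    have : f =ᶠ[𝓝 y] (u ∘ p.P) := by
      filter_upwards [Metric.isOpen_ball.mem_nhds hy] with z hz using hfe z hz
    rw [this.fderiv_eq]
  have hcb : Metric.ball (0 : E2) r ⊆ Metric.closedBall 0 r := Metric.ball_subset_closedBall
  have hσc : ContinuousOn p.σ (Metric.closedBall 0 r) := p.σ_smooth.continuousOn.mono
    (Metric.closedBall_subset_ball hrδ)
  have hPc : ContinuousOn p.P (Metric.closedBall 0 r) := p.cont_P.mono
    (Metric.closedBall_subset_ball hrδ)
  have hint : ∀ g : M → ℝ, Continuous g →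
      IntegrableOn (fun y => g (p.P y) * p.σ y) (Metric.ball (0 : E2) r) := fun g hg =>
    (((hg.comp_continuousOn hPc).mul hσc).integrableOn_compact
      (isCompact_closedBall 0 r)).mono_set hcb
  obtain ⟨m, hm1, hm2⟩ := exists_median hf.continuous hr0
  set v : E2 → ℝ := fun x => f x - m with hv
  have hvd : ContDiff ℝ 1 v := hf1.sub contDiff_const
  have hvder : ∀ y, fderiv ℝ v y = fderiv ℝ f y := fun y => by
    rw [hv, fderiv_sub_const]
  have hsc : 0 < √C := Real.sqrt_pos.2 hC
  -- the window bound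
  have hWB : WB v 0 r (2 / c ^ 2 * E) := by
    intro k
    have hwc : Continuous (fun x => (1 / (1 + (u x - (k + m)) ^ 2)) *
        ‖Pool.Agent.Helper41.PS.grad u x‖ ^ 2) := by
      refine Continuous.mul (Continuous.div continuous_const (by fun_prop) fun x => by positivity)
        (hgcont.pow 2)
    have hmS : MeasurableSet {x ∈ Metric.ball (0 : E2) r | |v x - k| ≤ 1} :=
      measurableSet_ball.inter (measurableSet_le
        (by have := hf.continuous; fun_prop : Continuous fun x => |v x - k|).measurable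
        measurable_const)
    calc ∫ x in {x ∈ Metric.ball (0 : E2) r | |v x - k| ≤ 1}, ‖fderiv ℝ v x‖ ^ 2
        ≤ ∫ x in {x ∈ Metric.ball (0 : E2) r | |v x - k| ≤ 1}, (2 / c ^ 2) *
            (((1 / (1 + (u (p.P x) - (k + m)) ^ 2)) *
              ‖Pool.Agent.Helper41.PS.grad u (p.P x)‖ ^ 2) * p.σ x) := by
          refine setIntegral_mono_on ((intOn_grad_sq hvd 0 r).mono_set fun x hx => hx.1)
            (IntegrableOn.mono_set (s := {x ∈ Metric.ball (0 : E2) r | |v x - k| ≤ 1}) ((hint _ hwc).const_mul _) fun x hx => hx.1) hmS fun x hx => ?_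
          obtain ⟨hxb, hxk⟩ := hx
          rw [hvder, hfder x hxb]
          have h1 := (hcmp u hu x (hcb hxb)).1
          have h2 := (hσ x (hcb hxb)).1
          have h3 : u (p.P x) - (k + m) = v x - k := by
            have := hfe x hxb
            simp only [Function.comp_apply] at this
            rw [hv]
            simp only
            rw [this]
            ring
          have h4 : (u (p.P x) - (k + m)) ^ 2 ≤ 1 := by
            rw [h3, sq_le_one_iff_abs_le_one]
            exact hxk
          have h5 : 1 / 2 ≤ 1 / (1 + (u (p.P x) - (k + m)) ^ 2) :=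
            one_div_le_one_div_of_le (by positivity) (by linarith)
          have h6 : c * ‖gradient (u ∘ p.P) x‖ ^ 2 * c ≤
              ‖Pool.Agent.Helper41.PS.grad u (p.P x)‖ ^ 2 * p.σ x :=
            mul_le_mul h1 h2 hc.le (sq_nonneg _)
          calc ‖gradient (u ∘ p.P) x‖ ^ 2
              = 2 / c ^ 2 * (1 / 2 * (c * ‖gradient (u ∘ p.P) x‖ ^ 2 * c)) := by
                field_simp
            _ ≤ 2 / c ^ 2 * (1 / (1 + (u (p.P x) - (k + m)) ^ 2) *
                (‖Pool.Agent.Helper41.PS.grad u (p.P x)‖ ^ 2 * p.σ x)) := by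
                gcongr
            _ = _ := by ring
      _ ≤ ∫ x in Metric.ball (0 : E2) r, (2 / c ^ 2) *
            (((1 / (1 + (u (p.P x) - (k + m)) ^ 2)) *
              ‖Pool.Agent.Helper41.PS.grad u (p.P x)‖ ^ 2) * p.σ x) := by
          refine setIntegral_mono_set ((hint _ hwc).const_mul _) ?_
            (Eventually.of_forall fun x hx => hx.1)
          refine (ae_restrict_iff' measurableSet_ball).2 (Eventually.of_forall fun x hx => ?_)
          have := p.σ_pos x (hsub hx)
          simp only [Pi.zero_apply]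
          positivity
      _ = 2 / c ^ 2 * ∫ x in p.P '' Metric.ball 0 r, (1 / (1 + (u x - (k + m)) ^ 2)) *
              ‖Pool.Agent.Helper41.PS.grad u x‖ ^ 2 ∂vol := by
          rw [integral_const_mul,
            Pool.Agent.Helper93.PS.integral_param p hwc Metric.isOpen_ball hsub]
      _ ≤ 2 / c ^ 2 * ∫ x, (1 / (1 + (u x - (k + m)) ^ 2)) *
              ‖Pool.Agent.Helper41.PS.grad u x‖ ^ 2 ∂vol := by
          refine mul_le_mul_of_nonneg_left ?_ (by positivity)
          exact setIntegral_le_integral (integrable_of_cont hwc)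
            (Eventually.of_forall fun x => by simp only [Pi.zero_apply]; positivity)
      _ ≤ 2 / c ^ 2 * E := mul_le_mul_of_nonneg_left (hW _) (by positivity)
  have hmain := (hTS v hvd 0 r hr0 hWB (by rw [Nat.cast_one]; exact hm1)
    (by rw [Nat.cast_one]; exact hm2)).1
  calc ∫ x in p.P '' Metric.ball 0 r, ‖Pool.Agent.Helper41.PS.grad u x‖ ∂vol
      = ∫ y in Metric.ball (0 : E2) r, ‖Pool.Agent.Helper41.PS.grad u (p.P y)‖ * p.σ y :=
        Pool.Agent.Helper93.PS.integral_param p hgcont Metric.isOpen_ball hsub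
    _ ≤ ∫ y in Metric.ball (0 : E2) r, (C * √C) * ‖fderiv ℝ v y‖ := by
        refine setIntegral_mono_on (hint _ hgcont) ((intOn_grad hvd 0 r).const_mul _)
          measurableSet_ball fun y hy => ?_
        rw [hvder, hfder y hy]
        have h1 := (hcmp u hu y (hcb hy)).2
        have h2 := (hσ y (hcb hy)).2
        have h3 : ‖Pool.Agent.Helper41.PS.grad u (p.P y)‖ ≤ √C * ‖gradient (u ∘ p.P) y‖ := by
          refine le_of_sq_le_sq ?_ (by positivity)
          rw [mul_pow, Real.sq_sqrt hC.le]
          exact h1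
        calc ‖Pool.Agent.Helper41.PS.grad u (p.P y)‖ * p.σ y
            ≤ (√C * ‖gradient (u ∘ p.P) y‖) * C :=
              mul_le_mul h3 h2 (p.σ_pos y (hsub hy)).le (by positivity)
          _ = _ := by ring
    _ = C * √C * ∫ y in Metric.ball (0 : E2) r, ‖fderiv ℝ v y‖ := integral_const_mul _ _
    _ ≤ C * √C * (G * r) := mul_le_mul_of_nonneg_left hmain (by positivity)

/-- **Total gradient bound**: window energies control the `L¹` norm of the gradient. -/
theorem totalGradBound (vol : Measure M) [IsProbabilityMeasure vol]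
    (hvol : IsRiemannianVolume vol) : TotalGradBound vol := by
  intro E hE
  choose U hUo hxU hU using fun x : M => exists_local_total hvol hE x
  obtain ⟨t, ht⟩ := isCompact_univ.elim_nhds_subcover U fun x _ => (hUo x).mem_nhds (hxU x)
  have hfin : ∀ t : Finset M, ∃ C : ℝ, 0 ≤ C ∧ ∀ u : M → ℝ,
      ContMDiff (𝓡 2) 𝓘(ℝ, ℝ) ∞ u →
      (∀ k : ℝ, ∫ x, (1 / (1 + (u x - k) ^ 2)) * ‖Pool.Agent.Helper41.PS.grad u x‖ ^ 2 ∂vol ≤ E) →
      ∫ x in ⋃ x ∈ t, U x, ‖Pool.Agent.Helper41.PS.grad u x‖ ∂vol ≤ C := by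
    classical
    intro t
    induction t using Finset.induction_on with
    | empty => exact ⟨0, le_rfl, fun u _ _ => by simp⟩
    | insert a s ha ih =>
      obtain ⟨C1, hC1, h1⟩ := hU a
      obtain ⟨C2, hC2, h2⟩ := ih
      refine ⟨C1 + C2, by positivity, fun u hu hW => ?_⟩
      have hgi : Integrable (fun x => ‖Pool.Agent.Helper41.PS.grad u x‖) vol :=
        integrable_of_cont (Pool.Agent.Helper93.PS.continuous_norm_grad hu)
      have hms : MeasurableSet (⋃ x ∈ s, U x) := (isOpen_biUnion fun x _ => hUo x).measurableSet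
      rw [Finset.set_biUnion_insert, ← union_sdiff_self, setIntegral_union disjoint_sdiff_right
        (hms.diff (hUo a).measurableSet) hgi.integrableOn hgi.integrableOn]
      refine add_le_add (h1 u hu hW) (le_trans ?_ (h2 u hu hW))
      exact setIntegral_mono_set hgi.integrableOn
          (Eventually.of_forall fun x => norm_nonneg _)
          (Eventually.of_forall fun x hx => hx.1)
  obtain ⟨C, hC, h⟩ := hfin t
  have huniv : ⋃ x ∈ t, U x = univ := univ_subset_iff.1 ht.2
  rw [huniv] at h
  refine ⟨C + 1, by positivity, fun u hu hW => ?_⟩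
  have := h u hu hW
  rw [setIntegral_univ] at this
  linarith

end Pool.Agent.Helper99.PS
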