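import Pool.Agent.Helper9.PS.H1
import Pool.Agent.Helper99.PS.Global

/-!
# The Sobolev space embeds in `L²`: closability of the gradient
-/

open MeasureTheory Set Manifold Bundle Filter Topology
open scoped ContDiff ENNReal

set_option linter.unusedSectionVars false

namespace Pool.Agent.Helper99.PS
open Pool.Agent.Helper41.PS hiding grad_add grad_sub grad_add_const grad_const grad_mul grad_const_mul grad_comp
open Pool.Agent.Helper9.PS

/-- Integration by parts against a smooth vector field `χ ∇f` of compact support. -/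
theorem exists_ibp_field {f χ : E2 → ℝ} (hf : ContDiff ℝ ∞ f) (hχ : ContDiff ℝ ∞ χ)
    (hs : HasCompactSupport χ) {x0 : E2} {R : ℝ} (hsub : tsupport χ ⊆ Metric.ball x0 R) :
    ∃ L : ℝ, 0 ≤ L ∧ ∀ S : E2 → ℝ, ContDiff ℝ 1 S →
      |∫ x, χ x * inner ℝ (gradient S x) (gradient f x)| ≤ L * ∫ x in Metric.ball x0 R, |S x| := by
  set d : Fin 2 → E2 → ℝ := fun i x => χ x * fderiv ℝ f x (EuclideanSpace.single i 1) with hd
  have hdc : ∀ i, ContDiff ℝ 1 (d i) := by
    intro i
    have h1 : ContDiff ℝ 1 (fun x => fderiv ℝ f x) := hf.fderiv_right (by norm_cast)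
    exact (hχ.of_le (by exact_mod_cast le_top)).mul (h1.clm_apply contDiff_const)
  have hds : ∀ i, HasCompactSupport (d i) := fun i => hs.mul_right
  have hdsub : ∀ i, tsupport (d i) ⊆ tsupport χ := fun i => tsupport_mul_subset_left
  set dd : Fin 2 → E2 → ℝ := fun i x => fderiv ℝ (d i) x (EuclideanSpace.single i 1) with hdd
  have hddc : ∀ i, Continuous (dd i) := fun i =>
    ((hdc i).continuous_fderiv (by simp)).clm_apply continuous_const
  have hdds : ∀ i, HasCompactSupport (dd i) := fun i => (hds i).fderiv_apply (𝕜 := ℝ) _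
  have hddsub : ∀ i, tsupport (dd i) ⊆ Metric.ball x0 R := fun i =>
    (tsupport_fderiv_apply_subset ℝ _).trans ((hdsub i).trans hsub)
  have hbd : ∀ i, ∃ C, ∀ x, ‖dd i x‖ ≤ C := fun i =>
    (hdds i).exists_bound_of_continuous (hddc i)
  choose C hC using hbd
  refine ⟨|C 0| + |C 1|, by positivity, fun S hS => ?_⟩
  have c1 : ∀ i : Fin 2, Continuous (fun z => fderiv ℝ S z (EuclideanSpace.single i 1)) := fun i =>
    (hS.continuous_fderiv (by simp)).clm_apply continuous_const
  have e1 : ∫ x, χ x * inner ℝ (gradient S x) (gradient f x)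
      = ∑ i : Fin 2, ∫ x, fderiv ℝ S x (EuclideanSpace.single i 1) * d i x := by
    rw [← integral_finsetSum]
    · refine integral_congr_ae (Eventually.of_forall (fun x => ?_))
      simp only [Fin.sum_univ_two, hd]
      rw [inner_E2, grad_apply, grad_apply, grad_apply, grad_apply]
      ring
    · intro i _
      exact integrable_cc ((c1 i).mul (hdc i).continuous) (hds i).mul_left
  have e2 : ∀ i : Fin 2, |∫ x, fderiv ℝ S x (EuclideanSpace.single i 1) * d i x|
      ≤ |C i| * ∫ x in Metric.ball x0 R, |S x| := by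
    intro i
    rw [ibp_dir hS (hdc i) (hds i), abs_neg]
    have e3 : ∫ x, S x * fderiv ℝ (d i) x (EuclideanSpace.single i 1)
        = ∫ x in Metric.ball x0 R, S x * dd i x := by
      rw [← integral_indicator measurableSet_ball]
      refine integral_congr_ae (Eventually.of_forall (fun x => ?_))
      by_cases hx : x ∈ Metric.ball x0 R
      · rw [indicator_of_mem hx]
      · rw [indicator_of_notMem hx]
        have : dd i x = 0 := image_eq_zero_of_notMem_tsupport (fun h => hx (hddsub i h))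
        simp only
        rw [show fderiv ℝ (d i) x (EuclideanSpace.single i 1) = dd i x from rfl, this, mul_zero]
    rw [e3]
    have hint : IntegrableOn (fun x => |C i| * |S x|) (Metric.ball x0 R) := by
      have hc : Continuous (fun x => |C i| * |S x|) := by
        have := hS.continuous
        fun_prop
      exact (hc.continuousOn.integrableOn_compact (isCompact_closedBall x0 R)).mono_set
        Metric.ball_subset_closedBall
    calc |∫ x in Metric.ball x0 R, S x * dd i x| ≤ ∫ x in Metric.ball x0 R, |C i| * |S x| := by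
          rw [← Real.norm_eq_abs]
          refine norm_integral_le_of_norm_le hint (Eventually.of_forall (fun x => ?_))
          rw [norm_mul, Real.norm_eq_abs, mul_comm]
          exact mul_le_mul_of_nonneg_right ((hC i x).trans (le_abs_self _)) (abs_nonneg _)
      _ = |C i| * ∫ x in Metric.ball x0 R, |S x| := integral_const_mul _ _
  rw [e1, Fin.sum_univ_two]
  calc _ ≤ |∫ x, fderiv ℝ S x (EuclideanSpace.single 0 1) * d 0 x|
        + |∫ x, fderiv ℝ S x (EuclideanSpace.single 1 1) * d 1 x| := abs_add_le _ _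
    _ ≤ |C 0| * (∫ x in Metric.ball x0 R, |S x|) + |C 1| * ∫ x in Metric.ball x0 R, |S x| :=
        add_le_add (e2 0) (e2 1)
    _ = _ := by ring

variable {M : Type*} [TopologicalSpace M] [T2Space M] [CompactSpace M] [ChartedSpace E2 M]
  [IsManifold (𝓡 2) ∞ M] [RiemannianBundle (fun x : M => TangentSpace (𝓡 2) x)]
  [IsContMDiffRiemannianBundle (𝓡 2) ∞ E2 (fun x : M => TangentSpace (𝓡 2) x)]
  [MeasurableSpace M] [BorelSpace M]

/-- Closability of the gradient, local quantitative form. -/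
theorem exists_local_cl {vol : Measure M} [IsProbabilityMeasure vol]
    (hvol : IsRiemannianVolume vol) (x0 : M) :
    ∃ U : Set M, IsOpen U ∧ x0 ∈ U ∧ ∃ C : ℝ, 0 ≤ C ∧ ∀ φ : M → ℝ,
      ContMDiff (𝓡 2) 𝓘(ℝ, ℝ) ∞ φ → ∃ K : ℝ, 0 ≤ K ∧ ∀ w : M → ℝ,
      ContMDiff (𝓡 2) 𝓘(ℝ, ℝ) ∞ w →
      ∫ x in U, ‖Pool.Agent.Helper41.PS.grad φ x‖ ^ 2 ∂vol ≤
        C * (∫ x, ‖Pool.Agent.Helper41.PS.grad (fun x => φ x - w x) x‖ ^ 2 ∂vol)
          + K * ∫ x, |w x| ∂vol := by
  obtain ⟨p⟩ := Pool.Agent.Helper75.PS.exists_param vol hvol x0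
  have hδ := p.δ_pos
  set r := p.δ / 2 with hr
  have hr0 : 0 < r := by positivity
  have hrδ : r < p.δ := by rw [hr]; linarith
  have hsub : Metric.ball (0 : E2) r ⊆ Metric.ball 0 p.δ := Metric.ball_subset_ball hrδ.le
  obtain ⟨c, C, hc, hC, hσ, hcmp⟩ := Pool.Agent.Helper93.PS.exists_grad_comparison p hrδ
  set ρ := r / 2 with hρ
  have hρ0 : 0 < ρ := by positivity
  have hρr : Metric.ball (0 : E2) ρ ⊆ Metric.ball 0 r := Metric.ball_subset_ball (by linarith)
  have hopen : IsOpen (p.P '' Metric.ball 0 ρ) :=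
    p.open_P _ (hρr.trans hsub) Metric.isOpen_ball
  obtain ⟨hχs, hχc, hχt, hχ0, hχ1, hχe⟩ := cut_facts hρ0
  set χ : E2 → ℝ := (cut ρ hρ0 : E2 → ℝ) with hχ
  rw [show 2 * ρ = r by rw [hρ]; ring] at hχt
  have hcb : Metric.ball (0 : E2) r ⊆ Metric.closedBall 0 r := Metric.ball_subset_closedBall
  have hσc : ContinuousOn p.σ (Metric.closedBall 0 r) := p.σ_smooth.continuousOn.mono
    (Metric.closedBall_subset_ball hrδ)
  have hPc : ContinuousOn p.P (Metric.closedBall 0 r) := p.cont_P.mono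
    (Metric.closedBall_subset_ball hrδ)
  have hint : ∀ g : M → ℝ, Continuous g →
      IntegrableOn (fun y => g (p.P y) * p.σ y) (Metric.ball (0 : E2) r) := fun g hg =>
    (((hg.comp_continuousOn hPc).mul hσc).integrableOn_compact
      (isCompact_closedBall 0 r)).mono_set hcb
  refine ⟨p.P '' Metric.ball 0 ρ, hopen, ⟨0, Metric.mem_ball_self hρ0, p.P_zero⟩,
    C ^ 2 * (1 / c ^ 2), by positivity, fun φ hφ => ?_⟩
  obtain ⟨f, hf, hfe⟩ := exists_cut p.δ_pos (p.smooth_comp φ hφ)
  rw [← hr] at hfe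
  obtain ⟨L, hL, hLb⟩ := exists_ibp_field hf hχs hχc hχt
  refine ⟨C ^ 2 * 2 * (L * (1 / c)), by positivity, fun w hw => ?_⟩
  obtain ⟨g, hg, hge⟩ := exists_cut p.δ_pos (p.smooth_comp w hw)
  rw [← hr] at hge
  have hf1 : ContDiff ℝ 1 f := hf.of_le (by exact_mod_cast le_top)
  have hg1 : ContDiff ℝ 1 g := hg.of_le (by exact_mod_cast le_top)
  have hφw : ContMDiff (𝓡 2) 𝓘(ℝ, ℝ) ∞ (fun x => φ x - w x) := hφ.sub hw
  have hgφ := Pool.Agent.Helper93.PS.continuous_norm_grad hφ
  have hgφw := Pool.Agent.Helper93.PS.continuous_norm_grad hφw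
  have hfder : ∀ y ∈ Metric.ball (0 : E2) r, gradient f y = gradient (φ ∘ p.P) y := by
    intro y hy
    have : f =ᶠ[𝓝 y] (φ ∘ p.P) := by
      filter_upwards [Metric.isOpen_ball.mem_nhds hy] with z hz using hfe z hz
    rw [gradient, gradient, this.fderiv_eq]
  have hfgder : ∀ y ∈ Metric.ball (0 : E2) r,
      gradient f y - gradient g y = gradient ((fun x => φ x - w x) ∘ p.P) y := by
    intro y hy
    rw [← Pool.Agent.Helper41.PS.grad_sub (hf1.differentiable (by simp) y)
      (hg1.differentiable (by simp) y)]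
    have : (fun x => f x - g x) =ᶠ[𝓝 y] ((fun x => φ x - w x) ∘ p.P) := by
      filter_upwards [Metric.isOpen_ball.mem_nhds hy] with z hz
      rw [hfe z hz, hge z hz]
      rfl
    rw [gradient, gradient, this.fderiv_eq]
  have hfc := continuous_grad hf1
  have hgc := continuous_grad hg1
  have hχcont : Continuous χ := hχs.continuous
  have hcc : ∀ k : E2 → ℝ, Continuous k → Integrable (fun y => χ y * k y) := fun k hk =>
    integrable_cc (hχcont.mul hk) hχc.mul_right
  have k1 : Continuous fun y => ‖gradient f y‖ ^ 2 := by fun_prop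
  have k2 : Continuous fun y => ‖gradient f y - gradient g y‖ ^ 2 := by fun_prop
  have k3 : Continuous fun y => inner ℝ (gradient g y) (gradient f y) := by fun_prop
  -- the flat inequality
  have hflat : ∫ y, χ y * ‖gradient f y‖ ^ 2 ≤
      (∫ y, χ y * ‖gradient f y - gradient g y‖ ^ 2)
        + 2 * ∫ y, χ y * inner ℝ (gradient g y) (gradient f y) := by
    rw [← integral_const_mul, ← integral_add (hcc _ k2) ((hcc _ k3).const_mul 2)]
    refine integral_mono (hcc _ k1) ((hcc _ k2).add ((hcc _ k3).const_mul 2)) fun y => ?_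
    have h1 := @norm_sub_sq_real E2 _ _ (gradient f y) (gradient g y)
    have h2 : inner ℝ (gradient g y) (gradient f y) = inner ℝ (gradient f y) (gradient g y) :=
      real_inner_comm _ _
    have h3 := hχ0 y
    simp only
    rw [h1, h2]
    nlinarith [mul_nonneg h3 (sq_nonneg ‖gradient g y‖)]
  have hA : ∫ x in p.P '' Metric.ball 0 ρ, ‖Pool.Agent.Helper41.PS.grad φ x‖ ^ 2 ∂vol
      ≤ C ^ 2 * ∫ y, χ y * ‖gradient f y‖ ^ 2 := by
    rw [Pool.Agent.Helper93.PS.integral_param p (f := fun x => ‖Pool.Agent.Helper41.PS.grad φ x‖ ^ 2)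
      (hgφ.pow 2) Metric.isOpen_ball (hρr.trans hsub), ← integral_const_mul]
    calc ∫ y in Metric.ball (0 : E2) ρ, ‖Pool.Agent.Helper41.PS.grad φ (p.P y)‖ ^ 2 * p.σ y
        ≤ ∫ y in Metric.ball (0 : E2) ρ, C ^ 2 * (χ y * ‖gradient f y‖ ^ 2) := by
          refine setIntegral_mono_on ((hint (fun x => ‖Pool.Agent.Helper41.PS.grad φ x‖ ^ 2)
            (hgφ.pow 2)).mono_set hρr) (((hcc _ k1).const_mul _).integrableOn)
            measurableSet_ball fun y hy => ?_
          have hyr := hρr hy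
          rw [hχe y (Metric.ball_subset_closedBall hy), one_mul, hfder y hyr]
          have h1 := (hcmp φ hφ y (hcb hyr)).2
          have h2 := (hσ y (hcb hyr)).2
          calc ‖Pool.Agent.Helper41.PS.grad φ (p.P y)‖ ^ 2 * p.σ y
              ≤ (C * ‖gradient (φ ∘ p.P) y‖ ^ 2) * C :=
                mul_le_mul h1 h2 (p.σ_pos y (hsub hyr)).le (by positivity)
            _ = _ := by ring
      _ ≤ ∫ y, C ^ 2 * (χ y * ‖gradient f y‖ ^ 2) := by
          refine setIntegral_le_integral ((hcc _ k1).const_mul _) (Eventually.of_forall fun y => ?_)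
          have := hχ0 y
          simp only [Pi.zero_apply]
          positivity
  have hB : ∫ y, χ y * ‖gradient f y - gradient g y‖ ^ 2 ≤
      1 / c ^ 2 * ∫ x, ‖Pool.Agent.Helper41.PS.grad (fun x => φ x - w x) x‖ ^ 2 ∂vol := by
    have e1 : ∫ y, χ y * ‖gradient f y - gradient g y‖ ^ 2 =
        ∫ y in Metric.ball (0 : E2) r, χ y * ‖gradient f y - gradient g y‖ ^ 2 := by
      rw [← integral_indicator measurableSet_ball]
      refine integral_congr_ae (Eventually.of_forall (fun x => ?_))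
      by_cases hx : x ∈ Metric.ball (0 : E2) r
      · rw [indicator_of_mem hx]
      · rw [indicator_of_notMem hx]
        have : χ x = 0 := image_eq_zero_of_notMem_tsupport (fun h => hx (hχt h))
        simp only
        rw [this, zero_mul]
    rw [e1]
    calc ∫ y in Metric.ball (0 : E2) r, χ y * ‖gradient f y - gradient g y‖ ^ 2
        ≤ ∫ y in Metric.ball (0 : E2) r, 1 / c ^ 2 *
            (‖Pool.Agent.Helper41.PS.grad (fun x => φ x - w x) (p.P y)‖ ^ 2 * p.σ y) := by
          refine setIntegral_mono_on (hcc _ k2).integrableOn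
            ((hint (fun x => ‖Pool.Agent.Helper41.PS.grad (fun x => φ x - w x) x‖ ^ 2)
              (hgφw.pow 2)).const_mul _) measurableSet_ball fun y hy => ?_
          rw [hfgder y hy]
          have h1 := (hcmp _ hφw y (hcb hy)).1
          have h2 := (hσ y (hcb hy)).1
          set D := ‖gradient ((fun x => φ x - w x) ∘ p.P) y‖ with hD
          calc χ y * D ^ 2 ≤ 1 * D ^ 2 := mul_le_mul_of_nonneg_right (hχ1 y) (sq_nonneg _)
            _ = 1 / c ^ 2 * ((c * D ^ 2) * c) := by field_simp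
            _ ≤ 1 / c ^ 2 * (‖Pool.Agent.Helper41.PS.grad (fun x => φ x - w x) (p.P y)‖ ^ 2 * p.σ y) := by
              refine mul_le_mul_of_nonneg_left ?_ (by positivity)
              exact mul_le_mul h1 h2 hc.le (sq_nonneg _)
      _ = 1 / c ^ 2 * ∫ x in p.P '' Metric.ball 0 r,
            ‖Pool.Agent.Helper41.PS.grad (fun x => φ x - w x) x‖ ^ 2 ∂vol := by
          rw [integral_const_mul, Pool.Agent.Helper93.PS.integral_param p
            (f := fun x => ‖Pool.Agent.Helper41.PS.grad (fun x => φ x - w x) x‖ ^ 2)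
            (hgφw.pow 2) Metric.isOpen_ball hsub]
      _ ≤ _ := by
          refine mul_le_mul_of_nonneg_left ?_ (by positivity)
          exact setIntegral_le_integral (integrable_of_cont (hgφw.pow 2))
            (Eventually.of_forall fun x => sq_nonneg _)
  have hCb : ∫ y, χ y * inner ℝ (gradient g y) (gradient f y) ≤
      L * (1 / c) * ∫ x, |w x| ∂vol := by
    refine (le_abs_self _).trans ((hLb g hg1).trans ?_)
    rw [mul_assoc]
    refine mul_le_mul_of_nonneg_left ?_ hL
    have hwc : Continuous fun x => |w x| := hw.continuous.abs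
    calc ∫ y in Metric.ball (0 : E2) r, |g y|
        ≤ ∫ y in Metric.ball (0 : E2) r, 1 / c * (|w (p.P y)| * p.σ y) := by
          refine setIntegral_mono_on (intOn_ball hg.continuous.abs 0 r)
            ((hint _ hwc).const_mul _) measurableSet_ball fun y hy => ?_
          have h2 := (hσ y (hcb hy)).1
          rw [hge y hy]
          show |w (p.P y)| ≤ _
          calc |w (p.P y)| = 1 / c * (|w (p.P y)| * c) := by field_simp
            _ ≤ _ := by gcongr
      _ = 1 / c * ∫ x in p.P '' Metric.ball 0 r, |w x| ∂vol := by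
          rw [integral_const_mul, Pool.Agent.Helper93.PS.integral_param p hwc
            Metric.isOpen_ball hsub]
      _ ≤ _ := by
          refine mul_le_mul_of_nonneg_left ?_ (by positivity)
          exact setIntegral_le_integral (integrable_of_cont hwc)
            (Eventually.of_forall fun x => abs_nonneg _)
  have hC2 : 0 ≤ C ^ 2 := by positivity
  calc ∫ x in p.P '' Metric.ball 0 ρ, ‖Pool.Agent.Helper41.PS.grad φ x‖ ^ 2 ∂vol
      ≤ C ^ 2 * ((1 / c ^ 2 *
          ∫ x, ‖Pool.Agent.Helper41.PS.grad (fun x => φ x - w x) x‖ ^ 2 ∂vol)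
          + 2 * (L * (1 / c) * ∫ x, |w x| ∂vol)) :=
        hA.trans (mul_le_mul_of_nonneg_left (hflat.trans (by linarith)) hC2)
    _ = _ := by ring

/-- Closability of the gradient, global quantitative form. -/
theorem exists_global_cl (vol : Measure M) [IsProbabilityMeasure vol]
    (hvol : IsRiemannianVolume vol) : ∃ C : ℝ, 0 ≤ C ∧ ∀ φ : M → ℝ,
      ContMDiff (𝓡 2) 𝓘(ℝ, ℝ) ∞ φ → ∃ K : ℝ, 0 ≤ K ∧ ∀ w : M → ℝ,
      ContMDiff (𝓡 2) 𝓘(ℝ, ℝ) ∞ w →
      ∫ x, ‖Pool.Agent.Helper41.PS.grad φ x‖ ^ 2 ∂vol ≤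
        C * (∫ x, ‖Pool.Agent.Helper41.PS.grad (fun x => φ x - w x) x‖ ^ 2 ∂vol)
          + K * ∫ x, |w x| ∂vol := by
  choose U hUo hxU hU using fun x : M => exists_local_cl hvol x
  obtain ⟨t, ht⟩ := isCompact_univ.elim_nhds_subcover U fun x _ => (hUo x).mem_nhds (hxU x)
  have hfin : ∀ t : Finset M, ∃ C : ℝ, 0 ≤ C ∧ ∀ φ : M → ℝ,
      ContMDiff (𝓡 2) 𝓘(ℝ, ℝ) ∞ φ → ∃ K : ℝ, 0 ≤ K ∧ ∀ w : M → ℝ,
      ContMDiff (𝓡 2) 𝓘(ℝ, ℝ) ∞ w →
      ∫ x in ⋃ x ∈ t, U x, ‖Pool.Agent.Helper41.PS.grad φ x‖ ^ 2 ∂vol ≤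
        C * (∫ x, ‖Pool.Agent.Helper41.PS.grad (fun x => φ x - w x) x‖ ^ 2 ∂vol)
          + K * ∫ x, |w x| ∂vol := by
    classical
    intro t
    induction t using Finset.induction_on with
    | empty => exact ⟨0, le_rfl, fun φ _ => ⟨0, le_rfl, fun w _ => by simp⟩⟩
    | insert a s ha ih =>
      obtain ⟨C1, hC1, h1⟩ := hU a
      obtain ⟨C2, hC2, h2⟩ := ih
      refine ⟨C1 + C2, by positivity, fun φ hφ => ?_⟩
      obtain ⟨K1, hK1, h1⟩ := h1 φ hφ
      obtain ⟨K2, hK2, h2⟩ := h2 φ hφ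
      refine ⟨K1 + K2, by positivity, fun w hw => ?_⟩
      have hgi : Integrable (fun x => ‖Pool.Agent.Helper41.PS.grad φ x‖ ^ 2) vol :=
        integrable_of_cont ((Pool.Agent.Helper93.PS.continuous_norm_grad hφ).pow 2)
      have hms : MeasurableSet (⋃ x ∈ s, U x) := (isOpen_biUnion fun x _ => hUo x).measurableSet
      rw [Finset.set_biUnion_insert, ← union_sdiff_self, setIntegral_union disjoint_sdiff_right
        (hms.diff (hUo a).measurableSet) hgi.integrableOn hgi.integrableOn]
      have h3 : ∫ x in (⋃ x ∈ s, U x) \ U a, ‖Pool.Agent.Helper41.PS.grad φ x‖ ^ 2 ∂vol ≤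
          ∫ x in ⋃ x ∈ s, U x, ‖Pool.Agent.Helper41.PS.grad φ x‖ ^ 2 ∂vol :=
        setIntegral_mono_set hgi.integrableOn (Eventually.of_forall fun x => sq_nonneg _)
          (Eventually.of_forall fun x hx => hx.1)
      have h4 := h1 w hw
      have h5 := h2 w hw
      linarith
  obtain ⟨C, hC, h⟩ := hfin t
  have huniv : ⋃ x ∈ t, U x = univ := univ_subset_iff.1 ht.2
  rw [huniv] at h
  refine ⟨C, hC, fun φ hφ => ?_⟩
  obtain ⟨K, hK, h⟩ := h φ hφ
  refine ⟨K, hK, fun w hw => ?_⟩
  have := h w hw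
  rwa [setIntegral_univ] at this

/-- The `L¹` norm is at most the `L²` norm. -/
theorem integral_abs_le_norm {vol : Measure M} [IsProbabilityMeasure vol] (w : PreH1 vol) :
    ∫ x, |w.toFun x| ∂vol ≤ ‖preL2 vol w‖ := by
  rw [preL2_apply]
  refine le_of_sq_le_sq ?_ (norm_nonneg _)
  rw [norm_toLp_sq]
  set m := ∫ x, |w.toFun x| ∂vol with hm
  have hc := w.continuous
  have h1 : 0 ≤ ∫ x, (|w.toFun x| - m) ^ 2 ∂vol := integral_nonneg fun x => sq_nonneg _
  have h2 : ∫ x, (|w.toFun x| - m) ^ 2 ∂vol = (∫ x, w.toFun x ^ 2 ∂vol) - m ^ 2 := by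
    have e : ∀ x, (|w.toFun x| - m) ^ 2 = (w.toFun x ^ 2 - 2 * m * |w.toFun x|) + m ^ 2 := by
      intro x
      rw [sub_sq, sq_abs]
      ring
    simp_rw [e]
    rw [integral_add, integral_sub, integral_const_mul, ← hm]
    · simp
      ring
    · exact integrable_of_cont (by fun_prop)
    · exact integrable_of_cont (by fun_prop)
    · exact integrable_of_cont (by fun_prop)
    · exact integrable_const _
  linarith

/-- **The Sobolev space embeds in `L²`.** -/
theorem toL2_injective (vol : Measure M) [IsProbabilityMeasure vol]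
    (hvol : IsRiemannianVolume vol) : Function.Injective (toL2 vol) := by
  rw [injective_iff_map_eq_zero]
  intro v hv
  obtain ⟨C, hC, hcl⟩ := exists_global_cl vol hvol
  -- the estimate for smooth functions, extended to `v`
  have h1 : ∀ φ : PreH1 vol, ‖(φ : H1 vol)‖ ^ 2 ≤
      ‖toL2 vol (φ : H1 vol)‖ ^ 2 + C * ‖(φ : H1 vol) - v‖ ^ 2 := by
    intro φ
    obtain ⟨K, hK, h⟩ := hcl φ.toFun φ.smooth
    have h2 : ∀ w : H1 vol, ‖(φ : H1 vol)‖ ^ 2 ≤
        ‖toL2 vol (φ : H1 vol)‖ ^ 2 + C * ‖(φ : H1 vol) - w‖ ^ 2 + K * ‖toL2 vol w‖ := by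
      intro w
      induction w using UniformSpace.Completion.induction_on with
      | hp =>
        refine isClosed_le continuous_const ?_
        fun_prop
      | ih w =>
        rw [← UniformSpace.Completion.coe_sub, UniformSpace.Completion.norm_coe,
          UniformSpace.Completion.norm_coe, toL2_coe, toL2_coe, PreH1.norm_sq, PreH1.norm_sq,
          preL2_apply, norm_toLp_sq]
        have h3 := h w.toFun w.smooth
        have h4 := integral_abs_le_norm w
        have h5 : 0 ≤ ∫ x, (φ - w).toFun x ^ 2 ∂vol := integral_nonneg fun x => sq_nonneg _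
        have h6 : K * ∫ x, |w.toFun x| ∂vol ≤ K * ‖preL2 vol w‖ :=
          mul_le_mul_of_nonneg_left h4 hK
        have h7 : (∫ x, ‖Pool.Agent.Helper41.PS.grad (fun x => φ.toFun x - w.toFun x) x‖ ^ 2 ∂vol)
          = ∫ x, ‖Pool.Agent.Helper41.PS.grad (φ - w).toFun x‖ ^ 2 ∂vol := rfl
        rw [h7] at h3
        nlinarith [mul_nonneg hC h5]
    have h8 := h2 v
    rwa [hv, norm_zero, mul_zero, add_zero] at h8
  have h9 : ∀ φ : H1 vol, ‖φ‖ ^ 2 ≤ ‖toL2 vol φ‖ ^ 2 + C * ‖φ - v‖ ^ 2 := by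
    intro φ
    induction φ using UniformSpace.Completion.induction_on with
    | hp =>
      refine isClosed_le (by fun_prop) ?_
      fun_prop
    | ih φ => exact h1 φ
  have h10 := h9 v
  rw [hv, sub_self, norm_zero, norm_zero] at h10
  have h11 : ‖v‖ ^ 2 ≤ 0 := by nlinarith
  have h12 : ‖v‖ = 0 := by
    have := sq_nonneg ‖v‖
    exact pow_eq_zero_iff (two_ne_zero) |>.1 (le_antisymm h11 this)
  exact norm_eq_zero.1 h12

end Pool.Agent.Helper99.PS
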