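import Pool.Agent.Helper9.PS.Fin
import Pool.Agent.Helper99.PS.Global

/-!
# Every model of the Sobolev space is isometric to the completion `H1 vol`
-/

open MeasureTheory Set Manifold Bundle Filter Topology
open scoped ContDiff ENNReal

set_option linter.unusedSectionVars false

namespace Pool.Agent.Helper99.PS
open Pool.Agent.Helper41.PS Pool.Agent.Helper9.PS Pool.Agent.Helper93.PS

theorem inner_preserving_add {V H : Type*} [SeminormedAddCommGroup V] [InnerProductSpace ℝ V]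
    [NormedAddCommGroup H] [InnerProductSpace ℝ H] (T : V → H)
    (hT : ∀ f g, inner ℝ (T f) (T g) = inner ℝ f g) (f g : V) : T (f + g) = T f + T g := by
  have h : inner ℝ (T (f + g) - (T f + T g)) (T (f + g) - (T f + T g)) = 0 := by
    simp only [inner_sub_left, inner_sub_right, inner_add_left, inner_add_right, hT]
    ring
  rwa [inner_self_eq_zero, sub_eq_zero] at h

theorem inner_preserving_smul {V H : Type*} [SeminormedAddCommGroup V] [InnerProductSpace ℝ V]
    [NormedAddCommGroup H] [InnerProductSpace ℝ H] (T : V → H)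
    (hT : ∀ f g, inner ℝ (T f) (T g) = inner ℝ f g) (c : ℝ) (f : V) : T (c • f) = c • T f := by
  have h : inner ℝ (T (c • f) - c • T f) (T (c • f) - c • T f) = 0 := by
    simp only [inner_sub_left, inner_sub_right, real_inner_smul_left, real_inner_smul_right, hT]
    ring
  rwa [inner_self_eq_zero, sub_eq_zero] at h

theorem norm_preserving_of_inner {V H : Type*} [SeminormedAddCommGroup V] [InnerProductSpace ℝ V]
    [NormedAddCommGroup H] [InnerProductSpace ℝ H] (T : V → H)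
    (hT : ∀ f g, inner ℝ (T f) (T g) = inner ℝ f g) (f : V) : ‖T f‖ = ‖f‖ := by
  have h : ‖T f‖ ^ 2 = ‖f‖ ^ 2 := by
    rw [← real_inner_self_eq_norm_sq, ← real_inner_self_eq_norm_sq, hT]
  exact (sq_eq_sq₀ (norm_nonneg _) (norm_nonneg _)).mp h

theorem eLpNorm_two_le_of_lintegral {α : Type*} [MeasurableSpace α] {μ : Measure α} {f : α → ℝ}
    {c : ℝ} (hc : 0 ≤ c) (h : ∫⁻ x, ‖f x‖ₑ ^ 2 ∂μ ≤ ENNReal.ofReal (c ^ 2)) :
    eLpNorm f 2 μ ≤ ENNReal.ofReal c := by
  rw [eLpNorm_eq_lintegral_rpow_enorm_toReal (by norm_num) (by norm_num)]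
  have h1 : ∫⁻ x, ‖f x‖ₑ ^ (2 : ℝ≥0∞).toReal ∂μ = ∫⁻ x, ‖f x‖ₑ ^ 2 ∂μ := by
    refine lintegral_congr fun x => ?_
    rw [ENNReal.toReal_ofNat, ENNReal.rpow_ofNat]
  rw [h1]
  calc (∫⁻ x, ‖f x‖ₑ ^ 2 ∂μ) ^ (1 / (2 : ℝ≥0∞).toReal)
      ≤ (ENNReal.ofReal (c ^ 2)) ^ (1 / (2 : ℝ≥0∞).toReal) :=
        ENNReal.rpow_le_rpow h (by positivity)
    _ = ENNReal.ofReal c := by
        rw [ENNReal.toReal_ofNat, ENNReal.ofReal_rpow_of_nonneg (by positivity) (by positivity)]
        congr 1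
        rw [← Real.sqrt_eq_rpow, Real.sqrt_sq hc]

variable {M : Type*} [TopologicalSpace M] [T2Space M] [CompactSpace M] [ChartedSpace E2 M]
  [IsManifold (𝓡 2) ∞ M] [RiemannianBundle (fun x : M => TangentSpace (𝓡 2) x)]
  [IsContMDiffRiemannianBundle (𝓡 2) ∞ E2 (fun x : M => TangentSpace (𝓡 2) x)]
  [MeasurableSpace M] [BorelSpace M] (vol : Measure M) [IsProbabilityMeasure vol]

theorem exists_equiv {H : Type*} [NormedAddCommGroup H] [InnerProductSpace ℝ H] [CompleteSpace H]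
    (ι : (M → ℝ) → H) (j : H → M → ℝ)
    (inner_eq : ∀ u v : M → ℝ, ContMDiff (𝓡 2) 𝓘(ℝ, ℝ) ∞ u → ContMDiff (𝓡 2) 𝓘(ℝ, ℝ) ∞ v →
      inner ℝ (ι u) (ι v) = (∫ x, u x * v x ∂vol) + ∫ x, inner ℝ (grad u x) (grad v x) ∂vol)
    (dense : Dense (ι '' {u | ContMDiff (𝓡 2) 𝓘(ℝ, ℝ) ∞ u}))
    (meas : ∀ w, AEStronglyMeasurable (j w) vol)
    (cont : ∀ w w', ∫⁻ x, ‖j w x - j w' x‖ₑ ^ 2 ∂vol ≤ ENNReal.ofReal (‖w - w'‖ ^ 2))
    (repr : ∀ u, ContMDiff (𝓡 2) 𝓘(ℝ, ℝ) ∞ u → j (ι u) =ᵐ[vol] u) :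
    ∃ Φ : H1 vol ≃ₗᵢ[ℝ] H, ∀ w, j (Φ w) =ᵐ[vol] toL2 vol w := by
  set T : PreH1 vol → H := fun f => ι f.toFun with hTdef
  have hT : ∀ f g : PreH1 vol, inner ℝ (T f) (T g) = inner ℝ f g := by
    intro f g
    rw [PreH1.inner_def, h1Inner]
    exact inner_eq f.toFun g.toFun f.smooth g.smooth
  let TL : PreH1 vol →ₗ[ℝ] H :=
    { toFun := T
      map_add' := inner_preserving_add T hT
      map_smul' := fun c f => by
        simpa using inner_preserving_smul T hT c f }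
  have hTL : ∀ f, TL f = T f := fun f => rfl
  have hTn : ∀ f, ‖TL f‖ = ‖f‖ := fun f => norm_preserving_of_inner T hT f
  let TC : PreH1 vol →L[ℝ] H := TL.mkContinuous 1 (fun f => by rw [hTn f, one_mul])
  have hTC : ∀ f, TC f = T f := fun f => rfl
  let Φ0 : H1 vol →L[ℝ] H := TC.extend UniformSpace.Completion.toComplL
  have hΦ0 : ∀ f : PreH1 vol, Φ0 (f : H1 vol) = T f := by
    intro f
    have h := ContinuousLinearMap.extend_eq TC (e := UniformSpace.Completion.toComplL)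
      (by simpa using UniformSpace.Completion.denseRange_coe)
      (by simpa using UniformSpace.Completion.isUniformInducing_coe (PreH1 vol)) f
    have h' : (TC.extend UniformSpace.Completion.toComplL) (f : H1 vol) = TC f := by simpa using h
    exact h'
  have hΦn : ∀ w, ‖Φ0 w‖ = ‖w‖ := by
    intro w
    induction w using UniformSpace.Completion.induction_on with
    | hp => exact isClosed_eq (by fun_prop) (by fun_prop)
    | ih f => rw [hΦ0, UniformSpace.Completion.norm_coe]; exact hTn f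
  let Φ1 : H1 vol →ₗᵢ[ℝ] H := { toLinearMap := Φ0.toLinearMap, norm_map' := hΦn }
  have hΦ1 : ∀ w, Φ1 w = Φ0 w := fun w => rfl
  have hclosed : IsClosed (Set.range Φ1) := Φ1.isometry.isClosedEmbedding.isClosed_range
  have hsurj : Function.Surjective Φ1 := by
    have hsub : (ι '' {u | ContMDiff (𝓡 2) 𝓘(ℝ, ℝ) ∞ u}) ⊆ Set.range Φ1 := by
      rintro _ ⟨u, hu, rfl⟩
      refine ⟨((PreH1.mk u hu : PreH1 vol) : H1 vol), ?_⟩
      rw [hΦ1, hΦ0]
      rfl
    have h2 : closure (ι '' {u | ContMDiff (𝓡 2) 𝓘(ℝ, ℝ) ∞ u}) ⊆ Set.range Φ1 :=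
      closure_minimal hsub hclosed
    rw [dense.closure_eq] at h2
    intro y
    exact h2 (Set.mem_univ y)
  refine ⟨LinearIsometryEquiv.ofSurjective Φ1 hsurj, fun w => ?_⟩
  have hΦw : ∀ w, (LinearIsometryEquiv.ofSurjective Φ1 hsurj) w = Φ0 w := fun w => rfl
  rw [hΦw]
  have key : ∀ f : PreH1 vol, eLpNorm (fun x => j (Φ0 w) x - toL2 vol w x) 2 vol
      ≤ ENNReal.ofReal (2 * ‖w - f‖) := by
    intro f
    have m1 : AEStronglyMeasurable (fun x => j (Φ0 w) x - j (Φ0 f) x) vol :=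
      (meas _).sub (meas _)
    have m2 : AEStronglyMeasurable (fun x => toL2 vol (f : H1 vol) x - toL2 vol w x) vol :=
      (Lp.aestronglyMeasurable _).sub (Lp.aestronglyMeasurable _)
    have e1 : eLpNorm (fun x => j (Φ0 w) x - j (Φ0 f) x) 2 vol ≤ ENNReal.ofReal ‖w - f‖ := by
      refine eLpNorm_two_le_of_lintegral (norm_nonneg _) ?_
      refine (cont _ _).trans (le_of_eq ?_)
      rw [← map_sub, hΦn]
    have e2 : eLpNorm (fun x => toL2 vol (f : H1 vol) x - toL2 vol w x) 2 vol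
        ≤ ENNReal.ofReal ‖w - f‖ := by
      have h1 : eLpNorm (fun x => toL2 vol (f : H1 vol) x - toL2 vol w x) 2 vol
          = ‖toL2 vol (f : H1 vol) - toL2 vol w‖ₑ := by
        rw [Lp.enorm_def]
        exact eLpNorm_congr_ae (Lp.coeFn_sub _ _).symm
      rw [h1, ← map_sub, ← ofReal_norm]
      refine ENNReal.ofReal_le_ofReal ?_
      rw [norm_sub_rev w]
      exact norm_toL2_le _
    have e3 : (fun x => j (Φ0 w) x - toL2 vol w x)
        =ᵐ[vol] (fun x => (j (Φ0 w) x - j (Φ0 f) x) + (toL2 vol (f : H1 vol) x - toL2 vol w x)) := by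
      have h1 : j (Φ0 f) =ᵐ[vol] f.toFun := by
        rw [hΦ0]
        exact repr _ f.smooth
      have h2 : toL2 vol (f : H1 vol) =ᵐ[vol] f.toFun := toL2_ae f
      filter_upwards [h1, h2] with x hx1 hx2
      rw [hx1, hx2]
      ring
    rw [eLpNorm_congr_ae e3]
    calc eLpNorm (fun x => (j (Φ0 w) x - j (Φ0 f) x) + (toL2 vol (f : H1 vol) x - toL2 vol w x)) 2 vol
        ≤ eLpNorm (fun x => j (Φ0 w) x - j (Φ0 f) x) 2 vol
          + eLpNorm (fun x => toL2 vol (f : H1 vol) x - toL2 vol w x) 2 vol :=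
          eLpNorm_add_le m1 m2 (by norm_num)
      _ ≤ ENNReal.ofReal ‖w - f‖ + ENNReal.ofReal ‖w - f‖ := add_le_add e1 e2
      _ = ENNReal.ofReal (2 * ‖w - f‖) := by
          rw [← ENNReal.ofReal_add (norm_nonneg _) (norm_nonneg _), two_mul]
  have hz : eLpNorm (fun x => j (Φ0 w) x - toL2 vol w x) 2 vol = 0 := by
    refine le_antisymm ?_ zero_le
    refine ENNReal.le_of_forall_pos_le_add ?_
    intro ε hε _
    obtain ⟨y, hy, hyw⟩ : ∃ y ∈ Set.range ((↑) : PreH1 vol → H1 vol), dist w y < ε / 2 :=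
      Metric.mem_closure_iff.mp (UniformSpace.Completion.denseRange_coe (α := PreH1 vol) w)
        (ε / 2) (by positivity)
    obtain ⟨f, rfl⟩ := hy
    refine (key f).trans ?_
    rw [zero_add]
    rw [dist_eq_norm] at hyw
    calc ENNReal.ofReal (2 * ‖w - f‖) ≤ ENNReal.ofReal ε := by
          refine ENNReal.ofReal_le_ofReal ?_
          linarith
      _ = ε := ENNReal.ofReal_coe_nnreal
  have hz' := (eLpNorm_eq_zero_iff (f := fun x => j (Φ0 w) x - toL2 vol w x)
    ((meas _).sub (Lp.aestronglyMeasurable _)) (by norm_num)).mp hz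
  filter_upwards [hz'] with x hx
  simpa [sub_eq_zero] using hx

end Pool.Agent.Helper99.PS
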